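import Pool.Agent.H41.HKB.Targets

/-!
# Row CNT of the board hkb_modules: the counting lemma for cliques
-/

set_option autoImplicit false

open Finset Pool.Agent.H41.HKB Pool.Agent.H42.BD

namespace Pool.Agent.H16.HKB

section

variable {V : Type} (G : SimpleGraph V) [DecidableRel G.Adj] {ε : ℝ} {s t : Finset V}

/-- the vertices of `s` with few neighbours in `t` -/
noncomputable def bad (ε : ℝ) (s t : Finset V) : Finset V :=
  {x ∈ s | (#{y ∈ t | G.Adj x y} : ℝ) < ((G.edgeDensity s t : ℝ) - ε) * #t}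

lemma card_interedges_bad_le [DecidableEq V] :
    (#(Rel.interedges G.Adj (bad G ε s t) t) : ℝ) ≤
      #(bad G ε s t) * #t * ((G.edgeDensity s t : ℝ) - ε) := by
  refine (Nat.cast_le.2 <| (card_le_card <| subset_of_eq (Rel.interedges_eq_biUnion _)).trans
    card_biUnion_le).trans ?_
  simp_rw [Nat.cast_sum, card_map, ← nsmul_eq_mul, smul_mul_assoc, mul_comm (#t : ℝ)]
  exact sum_le_card_nsmul _ _ _ fun x hx ↦ (mem_filter.1 hx).2.le

lemma edgeDensity_bad_le [DecidableEq V] (hε : 0 ≤ ε) (dst : 2 * ε ≤ G.edgeDensity s t) :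
    (G.edgeDensity (bad G ε s t) t : ℝ) ≤ (G.edgeDensity s t : ℝ) - ε := by
  rw [SimpleGraph.edgeDensity_def]
  push_cast
  refine div_le_of_le_mul₀ (by positivity) (sub_nonneg_of_le <| by linarith) ?_
  rw [mul_comm]
  exact card_interedges_bad_le G

lemma card_bad_le [DecidableEq V] (dst : 2 * ε ≤ G.edgeDensity s t) (hst : G.IsUniform ε s t) :
    (#(bad G ε s t) : ℝ) ≤ #s * ε := by
  have hε : ε ≤ 1 := (le_mul_of_one_le_left hst.pos.le (by simp)).trans
    (dst.trans <| mod_cast SimpleGraph.edgeDensity_le_one _ _ _)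
  by_contra! h
  have : |(G.edgeDensity (bad G ε s t) t - G.edgeDensity s t : ℝ)| < ε :=
    hst (filter_subset _ _) Subset.rfl h.le (mul_le_of_le_one_right (Nat.cast_nonneg _) hε)
  rw [abs_sub_lt_iff] at this
  linarith [edgeDensity_bad_le G hst.pos.le dst]

/-- the pair of two large subsets -/
lemma uniform_sub {ε' d : ℝ} {s' t' : Finset V} (hε' : 0 < ε')
    (hst : G.IsUniform ε s t) (hd : d ≤ G.edgeDensity s t) (hs' : s' ⊆ s) (ht' : t' ⊆ t)
    (hs : d / 2 * #s ≤ #s') (ht : d / 2 * #t ≤ #t') (h1 : ε ≤ ε' * d / 2) (h2 : ε ≤ ε' / 2)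
    (h3 : ε ≤ d / 2) : G.IsUniform ε' s' t' ∧ d / 2 ≤ (G.edgeDensity s' t' : ℝ) := by
  have hs0 : (0 : ℝ) ≤ #s := Nat.cast_nonneg _
  have ht0 : (0 : ℝ) ≤ #t := Nat.cast_nonneg _
  have e1 : (#s : ℝ) * ε ≤ #s' := by nlinarith only [hs, hs0, h3, mul_nonneg hs0 (sub_nonneg.2 h3)]
  have e2 : (#t : ℝ) * ε ≤ #t' := by nlinarith only [ht, ht0, h3, mul_nonneg ht0 (sub_nonneg.2 h3)]
  have e3 := hst hs' ht' e1 e2
  rw [abs_sub_lt_iff] at e3
  constructor
  · intro a ha b hb ha' hb'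
    have f1 : (#s : ℝ) * ε ≤ #a := by
      have g1 : (#s : ℝ) * ε ≤ #s * (ε' * d / 2) := mul_le_mul_of_nonneg_left h1 hs0
      have g2 : d / 2 * #s * ε' ≤ #s' * ε' := mul_le_mul_of_nonneg_right hs hε'.le
      linarith only [g1, g2, ha']
    have f2 : (#t : ℝ) * ε ≤ #b := by
      have g1 : (#t : ℝ) * ε ≤ #t * (ε' * d / 2) := mul_le_mul_of_nonneg_left h1 ht0
      have g2 : d / 2 * #t * ε' ≤ #t' * ε' := mul_le_mul_of_nonneg_right ht hε'.le
      linarith only [g1, g2, hb']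
    have e4 := hst (ha.trans hs') (hb.trans ht') f1 f2
    rw [abs_sub_lt_iff] at e4 ⊢
    constructor
    · linarith only [e3.1, e3.2, e4.1, e4.2, h2]
    · linarith only [e3.1, e3.2, e4.1, e4.2, h2]
  · linarith only [e3.1, e3.2, hd, h3]

/-- the number of good vertices -/
lemma card_good [DecidableEq V] (q : ℕ) (s : Finset V) (t : Fin q → Finset V)
    (hd : ∀ j, 2 * ε ≤ G.edgeDensity s (t j)) (hu : ∀ j, G.IsUniform ε s (t j))
    (hq : (q : ℝ) * ε ≤ 1 / 2) :
    (#s : ℝ) / 2 ≤ #(s \ univ.biUnion (fun j => bad G ε s (t j))) := by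
  have h1 : (#(univ.biUnion (fun j => bad G ε s (t j))) : ℝ) ≤ q * (#s * ε) := by
    have h2 : #(univ.biUnion (fun j => bad G ε s (t j))) ≤ ∑ j, #(bad G ε s (t j)) :=
      card_biUnion_le
    have h3 : ((∑ j, #(bad G ε s (t j)) : ℕ) : ℝ) ≤ ∑ _j : Fin q, (#s * ε : ℝ) := by
      rw [Nat.cast_sum]
      exact sum_le_sum (fun j _ => card_bad_le G (hd j) (hu j))
    rw [sum_const, card_univ, Fintype.card_fin, nsmul_eq_mul] at h3
    exact (Nat.cast_le.2 h2).trans h3
  have h4 : univ.biUnion (fun j => bad G ε s (t j)) ⊆ s := by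
    intro x hx
    rw [mem_biUnion] at hx
    obtain ⟨j, -, hj⟩ := hx
    exact (mem_filter.1 hj).1
  rw [card_sdiff_of_subset h4, Nat.cast_sub (card_le_card h4)]
  have hs0 : (0 : ℝ) ≤ #s := Nat.cast_nonneg _
  nlinarith only [h1, mul_nonneg hs0 (sub_nonneg.2 hq)]

end

theorem pf_CNT : T_CNT := by
  intro q
  induction q with
  | zero =>
    intro d hd
    refine ⟨1, one_pos, 1, one_pos, ?_⟩
    intro V _ _ G _ A _
    rw [Fin.prod_univ_zero, one_mul, Nat.one_le_cast, Nat.one_le_iff_ne_zero, card_ne_zero]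
    exact ⟨Fin.elim0, mem_filter.2 ⟨mem_univ _, fun i => i.elim0, fun i => i.elim0⟩⟩
  | succ q ih =>
    intro d hd
    obtain ⟨ε', hε', κ', hκ', hIH⟩ := ih (d / 2) (by positivity)
    obtain ⟨ε, hε⟩ : ∃ ε : ℝ, ε = min (min (ε' * d / 2) (ε' / 2))
      (min (d / 2) (1 / (2 * ((q : ℝ) + 1)))) := ⟨_, rfl⟩
    have hε1 : ε ≤ ε' * d / 2 := by
      rw [hε]; exact (min_le_left _ _).trans (min_le_left _ _)
    have hε2 : ε ≤ ε' / 2 := by
      rw [hε]; exact (min_le_left _ _).trans (min_le_right _ _)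
    have hε3 : ε ≤ d / 2 := by
      rw [hε]; exact (min_le_right _ _).trans (min_le_left _ _)
    have hε4 : ε ≤ 1 / (2 * ((q : ℝ) + 1)) := by
      rw [hε]; exact (min_le_right _ _).trans (min_le_right _ _)
    have hεpos : 0 < ε := by
      rw [hε]; exact lt_min (lt_min (by positivity) (by positivity))
        (lt_min (by positivity) (by positivity))
    refine ⟨ε, hεpos, κ' * (d / 2) ^ q / 2, by positivity, ?_⟩
    intro V _ _ G _ A hA
    have hq : (q : ℝ) * ε ≤ 1 / 2 := by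
      have h1 : (q : ℝ) * ε ≤ q * (1 / (2 * ((q : ℝ) + 1))) :=
        mul_le_mul_of_nonneg_left hε4 (Nat.cast_nonneg _)
      refine h1.trans ?_
      rw [mul_one_div, div_le_div_iff₀ (by positivity) (by norm_num)]
      linarith
    have h0 : ∀ j : Fin q, 2 * ε ≤ (G.edgeDensity (A 0) (A j.succ) : ℝ) := fun j => by
      have := (hA 0 j.succ (Fin.succ_pos j)).2
      linarith only [this, hε3]
    have hu : ∀ j : Fin q, G.IsUniform ε (A 0) (A j.succ) := fun j =>
      (hA 0 j.succ (Fin.succ_pos j)).1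
    have hgood := card_good G q (A 0) (fun j => A j.succ) h0 hu hq
    obtain ⟨S, hS⟩ : ∃ S : Finset V, S = A 0 \ univ.biUnion
      (fun j : Fin q => bad G ε (A 0) (A j.succ)) := ⟨_, rfl⟩
    rw [← hS] at hgood
    have hSmem : ∀ v ∈ S, v ∈ A 0 ∧ ∀ j : Fin q,
        d / 2 * #(A j.succ) ≤ (#((A j.succ).filter (fun w => G.Adj v w)) : ℝ) := by
      intro v hv
      rw [hS, mem_sdiff, mem_biUnion] at hv
      refine ⟨hv.1, fun j => ?_⟩
      have h2 : v ∉ bad G ε (A 0) (A j.succ) := fun h => hv.2 ⟨j, mem_univ _, h⟩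
      unfold bad at h2
      rw [mem_filter, not_and, not_lt] at h2
      refine le_trans ?_ (h2 hv.1)
      apply mul_le_mul_of_nonneg_right _ (Nat.cast_nonneg _)
      have := (hA 0 j.succ (Fin.succ_pos j)).2
      linarith only [this, hε3]
    have hcount : ∀ v ∈ S, κ' * (d / 2) ^ q * ∏ j : Fin q, (#(A j.succ) : ℝ) ≤
        (((univ : Finset (Fin q → V)).filter (fun f => (∀ i, f i ∈
          (fun j : Fin q => (A j.succ).filter (fun w => G.Adj v w)) i) ∧
          ∀ i j, i < j → G.Adj (f i) (f j))).card : ℝ) := by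
      intro v hv
      obtain ⟨hv0, hv1⟩ := hSmem v hv
      have h3 := hIH V G (fun j : Fin q => (A j.succ).filter (fun w => G.Adj v w)) (by
        intro i j hij
        obtain ⟨hu', hd'⟩ := hA i.succ j.succ (Fin.succ_lt_succ_iff.2 hij)
        exact uniform_sub G hε' hu' hd' (filter_subset _ _) (filter_subset _ _) (hv1 i) (hv1 j)
          hε1 hε2 hε3)
      refine le_trans ?_ h3
      rw [mul_assoc]
      apply mul_le_mul_of_nonneg_left _ hκ'.le
      have h4 : (d / 2) ^ q * ∏ j : Fin q, (#(A j.succ) : ℝ) =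
          ∏ j : Fin q, (d / 2 * #(A j.succ) : ℝ) := by
        rw [prod_mul_distrib, prod_const, card_univ, Fintype.card_fin]
      rw [h4]
      exact prod_le_prod (fun j _ => by positivity) (fun j _ => hv1 j)
    have hsum : ∑ v ∈ S, (((univ : Finset (Fin q → V)).filter (fun f => (∀ i, f i ∈
          (fun j : Fin q => (A j.succ).filter (fun w => G.Adj v w)) i) ∧
          ∀ i j, i < j → G.Adj (f i) (f j))).card) ≤
        (((univ : Finset (Fin (q + 1) → V)).filter
          (fun f => (∀ i, f i ∈ A i) ∧ ∀ i j, i < j → G.Adj (f i) (f j))).card) := by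
      rw [← card_sigma]
      apply card_le_card_of_injOn (fun p => Fin.cons p.1 p.2)
      · rintro ⟨v, f⟩ hp
        rw [mem_coe, mem_sigma, mem_filter] at hp
        obtain ⟨hv, -, hf1, hf2⟩ := hp
        simp only at hf1 hf2 hv
        rw [mem_coe, mem_filter]
        change _ ∧ (∀ i, (Fin.cons v f : Fin (q + 1) → V) i ∈ A i) ∧ ∀ i j, i < j →
          G.Adj ((Fin.cons v f : Fin (q + 1) → V) i) ((Fin.cons v f : Fin (q + 1) → V) j)
        refine ⟨mem_univ _, ?_, ?_⟩
        · intro i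
          refine Fin.cases ?_ (fun j => ?_) i
          · rw [Fin.cons_zero]; exact (hSmem v hv).1
          · rw [Fin.cons_succ]; exact (mem_filter.1 (hf1 j)).1
        · intro i j hij
          obtain ⟨j', rfl⟩ := Fin.exists_succ_eq.2 (Fin.ne_zero_of_lt hij)
          rw [Fin.cons_succ]
          revert hij
          refine Fin.cases ?_ (fun i' => ?_) i
          · intro _
            rw [Fin.cons_zero]
            exact (mem_filter.1 (hf1 j')).2
          · intro hij
            rw [Fin.cons_succ]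
            exact hf2 i' j' (Fin.succ_lt_succ_iff.1 hij)
      · rintro ⟨v, f⟩ _ ⟨w, g⟩ _ h
        have h5 := Fin.cons_inj.1 (h : (Fin.cons v f : Fin (q + 1) → V) = Fin.cons w g)
        obtain ⟨h6, h7⟩ := h5
        subst h6 h7
        rfl
    have hsum' : ∑ v ∈ S, (κ' * (d / 2) ^ q * ∏ j : Fin q, (#(A j.succ) : ℝ)) ≤
        ((((univ : Finset (Fin (q + 1) → V)).filter
          (fun f => (∀ i, f i ∈ A i) ∧ ∀ i j, i < j → G.Adj (f i) (f j))).card : ℕ) : ℝ) := by
      refine le_trans (sum_le_sum hcount) ?_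
      rw [← Nat.cast_sum]
      exact Nat.cast_le.2 hsum
    refine le_trans ?_ hsum'
    rw [sum_const, nsmul_eq_mul, Fin.prod_univ_succ]
    have h8 : (0 : ℝ) ≤ κ' * (d / 2) ^ q * ∏ j : Fin q, (#(A j.succ) : ℝ) := by positivity
    calc κ' * (d / 2) ^ q / 2 * ((#(A 0) : ℝ) * ∏ j : Fin q, (#(A j.succ) : ℝ))
        = (#(A 0) : ℝ) / 2 * (κ' * (d / 2) ^ q * ∏ j : Fin q, (#(A j.succ) : ℝ)) := by ring
      _ ≤ _ := mul_le_mul_of_nonneg_right hgood h8

end Pool.Agent.H16.HKB
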