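import Pool.Agent.H41.HKB.Targets

/-!
# Row RED of the board hkb_modules: the reduced graph
-/

set_option autoImplicit false

open Finset Pool.Agent.H41.HKB Pool.Agent.H42.BD

namespace Pool.Agent.H16.HKB

section

variable {V : Type} [Fintype V] [DecidableEq V]

private lemma aux {n k : ℕ} (hk : 0 < k) (hn : k ≤ n) : n < 2 * k * (n / k) := by
  rw [mul_assoc, two_mul, ← add_lt_add_iff_right (n % k), add_right_comm, add_assoc,
    Nat.mod_add_div n k, add_comm, add_lt_add_iff_right]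
  apply (Nat.mod_lt n hk).trans_le
  simpa using Nat.mul_le_mul_left k ((Nat.one_le_div_iff hk).2 hn)

lemma size_bound {P : Finpartition (univ : Finset V)} (hP₁ : P.IsEquipartition) {B : ℕ}
    (hP₃ : #P.parts ≤ B) {s : Finset V} (hX : s ∈ P.parts) :
    Fintype.card V ≤ 2 * B * #s := by
  have hne := P.nonempty_of_mem_parts hX
  have hpos : 0 < #P.parts := Finset.Nonempty.card_pos ⟨_, hX⟩
  have h1 : Fintype.card V < 2 * #P.parts * (Fintype.card V / #P.parts) :=
    aux hpos P.card_parts_le_card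
  have h2 : Fintype.card V / #P.parts ≤ #s := hP₁.average_le_card_part hX
  calc Fintype.card V ≤ 2 * #P.parts * (Fintype.card V / #P.parts) := h1.le
    _ ≤ 2 * B * #s := by gcongr

lemma unreduced {G : SimpleGraph V} [DecidableRel G.Adj] {P : Finpartition (univ : Finset V)}
    (ε δ : ℝ) :
    (univ : Finset (V × V)).filter
      (fun p => G.Adj p.1 p.2 ∧ ¬ (G.regularityReduced P ε δ).Adj p.1 p.2) ⊆
      (P.nonUniforms G ε).biUnion (fun (U, W) ↦ U ×ˢ W) ∪ P.parts.biUnion offDiag ∪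
        (P.sparsePairs G δ).biUnion fun (U, W) ↦ G.interedges U W := by
  rintro ⟨x, y⟩
  simp only [mem_filter, SimpleGraph.regularityReduced_adj, not_and, not_exists,
    not_le, mem_biUnion, mem_union, mem_product, Prod.exists, mem_offDiag, and_imp,
    or_assoc, and_assoc, P.mk_mem_nonUniforms, Finpartition.mk_mem_sparsePairs,
    SimpleGraph.mem_interedges_iff]
  intro _ h h'
  replace h' := h' h
  obtain ⟨U, hU, hx⟩ := P.exists_mem (mem_univ x)
  obtain ⟨W, hW, hy⟩ := P.exists_mem (mem_univ y)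
  obtain rfl | hUW := eq_or_ne U W
  · exact Or.inr (Or.inl ⟨U, hU, hx, hy, G.ne_of_adj h⟩)
  by_cases h₂ : G.IsUniform ε U W
  · exact Or.inr <| Or.inr ⟨U, W, hU, hW, hUW, h' _ hU _ hW hx hy hUW h₂, hx, hy, h⟩
  · exact Or.inl ⟨U, W, hU, hW, hUW, h₂, hx, hy⟩

lemma oe_sub_le (G G' : SimpleGraph V) [DecidableRel G.Adj] [DecidableRel G'.Adj] :
    (oe G : ℝ) - oe G' ≤ (#((univ : Finset (V × V)).filter
      (fun p => G.Adj p.1 p.2 ∧ ¬ G'.Adj p.1 p.2)) : ℝ) := by
  have h : oe G ≤ oe G' + #((univ : Finset (V × V)).filter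
      (fun p => G.Adj p.1 p.2 ∧ ¬ G'.Adj p.1 p.2)) := by
    unfold oe
    refine (card_le_card ?_).trans (card_union_le _ _)
    intro p hp
    simp only [mem_filter, mem_univ, true_and, mem_union] at hp ⊢
    tauto
  have h' : (oe G : ℝ) ≤ oe G' + (#((univ : Finset (V × V)).filter
      (fun p => G.Adj p.1 p.2 ∧ ¬ G'.Adj p.1 p.2)) : ℝ) := by
    exact_mod_cast h
  linarith only [h']

end

theorem pf_RED : T_RED := by
  intro δ ε hδ hε
  obtain ⟨e0, he0⟩ : ∃ e0 : ℝ, e0 = min ε (δ / 16) := ⟨_, rfl⟩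
  have he0pos : 0 < e0 := by rw [he0]; exact lt_min hε (by positivity)
  have he0ε : e0 ≤ ε := by rw [he0]; exact min_le_left _ _
  have he0δ : e0 ≤ δ / 16 := by rw [he0]; exact min_le_right _ _
  obtain ⟨l, hl⟩ : ∃ l : ℕ, l = ⌈4 / (δ / 2)⌉₊ := ⟨_, rfl⟩
  have hl' : 4 / (δ / 2) ≤ (l : ℝ) := by rw [hl]; exact Nat.le_ceil _
  refine ⟨2 * SzemerediRegularity.bound e0 l + l, ?_, ?_⟩
  · have := SzemerediRegularity.bound_pos (ε := e0) (l := l)
    omega
  intro V _ _ G _ hB
  have hlcard : l ≤ Fintype.card V := by omega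
  have hbpos := SzemerediRegularity.bound_pos (ε := e0) (l := l)
  have hcard : 0 < Fintype.card V := by omega
  have : Nonempty V := Fintype.card_pos_iff.1 hcard
  obtain ⟨P, hP₁, hP₂, hP₃, hP₄⟩ := szemeredi_regularity G he0pos hlcard
  have hP' : 4 / (δ / 2) ≤ (#P.parts : ℝ) := hl'.trans (Nat.cast_le.2 hP₂)
  refine ⟨G.regularityReduced P e0 (δ / 16), fun u => P.part u,
    SimpleGraph.regularityReduced_le, ?_, ?_, ?_⟩
  · have h1 := oe_sub_le G (G.regularityReduced P e0 (δ / 16))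
    have h2 := card_le_card (unreduced (G := G) (P := P) e0 (δ / 16))
    have h3 := h2.trans ((card_union_le _ _).trans (Nat.add_le_add_right (card_union_le _ _) _))
    have h3' : (#((univ : Finset (V × V)).filter
        (fun p => G.Adj p.1 p.2 ∧ ¬ (G.regularityReduced P e0 (δ / 16)).Adj p.1 p.2)) : ℝ) ≤
        (#((P.nonUniforms G e0).biUnion (fun (U, W) ↦ U ×ˢ W)) : ℝ) +
        (#(P.parts.biUnion offDiag) : ℝ) +
        (#((P.sparsePairs G (δ / 16)).biUnion fun (U, W) ↦ G.interedges U W) : ℝ) := by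
      exact_mod_cast h3
    have hA := hP₁.sum_nonUniforms_lt (G := G) univ_nonempty he0pos hP₄
    have hBB := hP₁.card_biUnion_offDiag_le (by positivity : 0 < δ / 2) hP'
    have hC := hP₁.card_interedges_sparsePairs_le (G := G) (ε := δ / 16) (by positivity)
    rw [card_univ] at hA hBB hC
    have hn : (0 : ℝ) ≤ (Fintype.card V : ℝ) ^ 2 := by positivity
    have h4 : 4 * e0 * (Fintype.card V : ℝ) ^ 2 ≤ δ / 4 * (Fintype.card V : ℝ) ^ 2 := by
      apply mul_le_mul_of_nonneg_right _ hn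
      linarith only [he0δ]
    nlinarith only [h1, h3', hA, hBB, hC, h4, hn, hδ, mul_nonneg hδ.le hn]
  · intro u
    refine ⟨P.mem_part (mem_univ u), ?_⟩
    have h1 := size_bound hP₁ hP₃ (P.part_mem.2 (mem_univ u))
    calc Fintype.card V ≤ 2 * SzemerediRegularity.bound e0 l * #(P.part u) := h1
      _ ≤ (2 * SzemerediRegularity.bound e0 l + l) * #(P.part u) := by
        apply Nat.mul_le_mul_right; omega
  · rintro u v ⟨huv, U, hU, W, hW, hu, hv, hUW, hun, hd⟩
    have e1 : P.part u = U := P.part_eq_of_mem hU hu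
    have e2 : P.part v = W := P.part_eq_of_mem hW hv
    simp only [e1, e2]
    exact ⟨hun.mono he0ε, hd⟩

end Pool.Agent.H16.HKB
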